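import Pool.Agent.TH645.ZT.Sad
import Pool.Agent.TH839.ZT.Stm

/-!
# The `n`-th derivative of `exp (h w + g w)` at `0` does not vanish
-/

set_option autoImplicit false

open MeasureTheory Set Metric Complex
open scoped Real

namespace Pool.Agent.TH757.ZT

/-- Cauchy's formula on the unit circle, with the angle in `[-π, π]` -/
lemma cauchy (F : ℂ → ℂ) (hF : Differentiable ℂ F) (n : ℕ) :
    ∫ θ in (-π)..π, F (cexp (θ * I)) * cexp (-(n * (θ * I))) =
      2 * π / n.factorial * iteratedDeriv n F 0 := by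
  have h1 := DifferentiableOn.circleIntegral_one_div_sub_center_pow_smul (c := (0 : ℂ)) (R := 1)
    one_pos n (f := F) hF.differentiableOn
  rw [circleIntegral] at h1
  have h2 : ∀ θ : ℝ, deriv (circleMap 0 1) θ • ((1 / (circleMap 0 1 θ - 0) ^ (n + 1)) •
      F (circleMap 0 1 θ)) = I * (F (cexp (θ * I)) * cexp (-(n * (θ * I)))) := by
    intro θ
    have e0 : circleMap 0 1 θ = cexp (θ * I) := by simp [circleMap]
    rw [deriv_circleMap, sub_zero, e0, smul_eq_mul, smul_eq_mul]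
    have e1 : cexp (-(n * (θ * I))) = (cexp (θ * I) ^ n)⁻¹ := by
      rw [Complex.exp_neg, ← Complex.exp_nat_mul]
    have e2 : cexp (θ * I) ≠ 0 := Complex.exp_ne_zero _
    rw [e1]
    field_simp
    ring
  simp_rw [h2] at h1
  rw [intervalIntegral.integral_const_mul] at h1
  have hper : Function.Periodic (fun θ : ℝ => F (cexp (θ * I)) * cexp (-(n * (θ * I)))) (2 * π) := by
    intro θ
    have e1 : cexp (((θ + 2 * π : ℝ) : ℂ) * I) = cexp (θ * I) := by
      push_cast
      rw [add_mul, Complex.exp_add, Complex.exp_two_pi_mul_I, mul_one]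
    have e2 : ∀ t : ℝ, cexp (-(n * (t * I))) = (cexp (t * I) ^ n)⁻¹ := by
      intro t
      rw [Complex.exp_neg, ← Complex.exp_nat_mul]
    show F (cexp (((θ + 2 * π : ℝ) : ℂ) * I)) * cexp (-(n * (((θ + 2 * π : ℝ) : ℂ) * I))) =
      F (cexp (θ * I)) * cexp (-(n * (θ * I)))
    rw [e2, e1, e2]
  have h3 := hper.intervalIntegral_add_eq (-π) 0
  have h4 : -π + 2 * π = π := by ring
  rw [h4, zero_add] at h3
  rw [h3]
  have h5 : I ≠ 0 := Complex.I_ne_zero
  apply mul_left_cancel₀ h5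
  rw [h1, smul_eq_mul]
  ring

/-- the main term -/
lemma main_eq (n : ℕ) :
    ∫ θ in (-π)..π, cexp (n * (cexp (θ * I) - 1) - n * (θ * I)) =
      ((2 * π * (n ^ n / n.factorial) * Real.exp (-n) : ℝ) : ℂ) := by
  have h1 := cauchy (fun z => cexp (n * z)) (by fun_prop) n
  rw [iteratedDeriv_cexp_const_mul] at h1
  have h2 : ∀ θ : ℝ, cexp (n * (cexp (θ * I) - 1) - n * (θ * I)) =
      cexp (-n) * (cexp (n * cexp (θ * I)) * cexp (-(n * (θ * I)))) := by
    intro θ
    rw [← Complex.exp_add, ← Complex.exp_add]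
    congr 1
    ring
  simp_rw [h2]
  rw [intervalIntegral.integral_const_mul, h1]
  push_cast
  simp
  ring

lemma main_ge {n : ℕ} (hn : 1 ≤ n) :
    2 / Real.sqrt n ≤ 2 * π * (n ^ n / n.factorial) * Real.exp (-n) := by
  have hn0 : (0 : ℝ) < n := by exact_mod_cast hn
  have hs := Stirling.stirlingSeq'_antitone (Nat.zero_le (n - 1))
  simp only [Function.comp_apply, Nat.succ_eq_add_one, zero_add] at hs
  rw [Nat.sub_add_cancel hn, Stirling.stirlingSeq_one, Stirling.stirlingSeq] at hs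
  have hden : 0 < √(2 * n : ℝ) * (n / Real.exp 1) ^ n := by positivity
  rw [div_le_iff₀ hden] at hs
  have e1 : Real.exp 1 / √2 * (√(2 * n : ℝ) * (n / Real.exp 1) ^ n) =
      Real.exp 1 * √n * (n ^ n * Real.exp (-n)) := by
    rw [Real.sqrt_mul (by norm_num : (0 : ℝ) ≤ 2), div_pow, Real.exp_neg]
    have e2 : Real.exp 1 ^ n = Real.exp n := by rw [← Real.exp_nat_mul]; simp
    rw [e2]
    have h2 : √(2 : ℝ) ≠ 0 := by positivity
    field_simp
  rw [e1] at hs
  have hf : (0 : ℝ) < n.factorial := by exact_mod_cast n.factorial_pos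
  have hsq : 0 < √(n : ℝ) := Real.sqrt_pos.2 hn0
  have he : Real.exp 1 < 2.7182818286 := Real.exp_one_lt_d9
  have hpi : 3 < π := Real.pi_gt_three
  have h3 : 1 ≤ Real.exp 1 * √n * ((n ^ n / n.factorial) * Real.exp (-n)) := by
    have h4 : Real.exp 1 * √n * ((n ^ n / n.factorial) * Real.exp (-n)) =
        Real.exp 1 * √n * (n ^ n * Real.exp (-n)) / n.factorial := by ring
    rw [h4, le_div_iff₀ hf, one_mul]
    exact hs
  set t : ℝ := (n ^ n / n.factorial) * Real.exp (-n) with ht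
  have ht0 : 0 ≤ t := by positivity
  rw [div_le_iff₀ hsq]
  have h5 : 2 * π * (n ^ n / n.factorial) * Real.exp (-n) * √n = 2 * π * (√n * t) := by
    rw [ht]; ring
  rw [h5]
  have h6 : 1 ≤ Real.exp 1 * (√n * t) := by rw [← mul_assoc]; exact h3
  have h7 : 0 ≤ √n * t := by positivity
  nlinarith

/-- the error term -/
lemma err_le {n : ℕ} (hn : 1 ≤ n) {η : ℝ} (hη0 : 0 ≤ η) (hη : η ≤ 1 / 1000) (r : ℝ → ℂ)
    (hr : ∀ θ ∈ Icc (-π) π, ‖r θ‖ ≤ η * n * θ ^ 2) :
    ‖∫ θ in (-π)..π, cexp (n * (cexp (θ * I) - 1) - n * (θ * I)) * (cexp (r θ) - 1)‖ ≤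
      120 * η / Real.sqrt n := by
  have hn0 : (0 : ℝ) < n := by exact_mod_cast hn
  have hpi0 : 0 < π := Real.pi_pos
  have hpi : π < 3.15 := Real.pi_lt_d2
  have hpi3 : 3 < π := Real.pi_gt_three
  have hK : ∀ θ ∈ Icc (-π) π, ‖cexp (n * (cexp (θ * I) - 1) - n * (θ * I)) * (cexp (r θ) - 1)‖ ≤
      2 * η * π ^ 2 * Real.exp (-(n / π ^ 2) * θ ^ 2) := by
    intro θ hθ
    have h1 : ‖cexp (n * (cexp (θ * I) - 1) - n * (θ * I))‖ ≤
        Real.exp (-(2 * (n * θ ^ 2 / π ^ 2))) := by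
      rw [Complex.norm_exp]
      apply Real.exp_le_exp.2
      have e1 : (n * (cexp (θ * I) - 1) - n * (θ * I)).re = n * (Real.cos θ - 1) := by
        simp [Complex.exp_ofReal_mul_I_re]
      rw [e1]
      have h2 : Real.cos θ ≤ 1 - 2 / π ^ 2 * θ ^ 2 :=
        Real.cos_le_one_sub_mul_cos_sq (abs_le.2 ⟨hθ.1, hθ.2⟩)
      have h3 : n * (Real.cos θ - 1) ≤ n * (-(2 / π ^ 2 * θ ^ 2)) :=
        mul_le_mul_of_nonneg_left (by linarith) hn0.le
      calc _ ≤ _ := h3
        _ = _ := by ring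
    have h4 : ‖cexp (r θ) - 1‖ ≤ ‖r θ‖ * Real.exp ‖r θ‖ := by
      have := Complex.norm_exp_sub_sum_le_norm_mul_exp (r θ) 1
      simpa using this
    set s : ℝ := n * θ ^ 2 / π ^ 2 with hs
    have hs0 : 0 ≤ s := by positivity
    have h5 : ‖r θ‖ ≤ η * π ^ 2 * s := by
      refine (hr θ hθ).trans (le_of_eq ?_)
      rw [hs]
      field_simp
    have h6 : η * π ^ 2 ≤ 1 / 2 := by nlinarith
    have h7 : ‖cexp (r θ) - 1‖ ≤ η * π ^ 2 * s * Real.exp (s / 2) := by
      refine h4.trans ?_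
      have h8 : ‖r θ‖ ≤ s / 2 := by
        refine h5.trans ?_
        nlinarith
      exact mul_le_mul h5 (Real.exp_le_exp.2 h8) (Real.exp_pos _).le (by positivity)
    have h9 : s ≤ 2 * Real.exp (s / 2) := by
      have := Real.add_one_le_exp (s / 2)
      linarith
    rw [norm_mul]
    calc ‖cexp (n * (cexp (θ * I) - 1) - n * (θ * I))‖ * ‖cexp (r θ) - 1‖
        ≤ Real.exp (-(2 * s)) * (η * π ^ 2 * s * Real.exp (s / 2)) :=
          mul_le_mul h1 h7 (norm_nonneg _) (Real.exp_pos _).le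
      _ ≤ Real.exp (-(2 * s)) * (η * π ^ 2 * (2 * Real.exp (s / 2)) * Real.exp (s / 2)) := by
          gcongr
      _ = 2 * η * π ^ 2 * (Real.exp (-(2 * s)) * (Real.exp (s / 2) * Real.exp (s / 2))) := by ring
      _ = 2 * η * π ^ 2 * Real.exp (-s) := by
          rw [← Real.exp_add, ← Real.exp_add]
          congr 2
          ring
      _ = _ := by
          congr 2
          rw [hs]
          ring
  have hb : 0 < (n : ℝ) / π ^ 2 := by positivity
  have hint : Integrable (fun θ : ℝ => 2 * η * π ^ 2 * Real.exp (-(n / π ^ 2) * θ ^ 2)) :=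
    (integrable_exp_neg_mul_sq hb).const_mul _
  have hle : -π ≤ π := by linarith
  calc ‖∫ θ in (-π)..π, cexp (n * (cexp (θ * I) - 1) - n * (θ * I)) * (cexp (r θ) - 1)‖
      ≤ ∫ θ in (-π)..π, 2 * η * π ^ 2 * Real.exp (-(n / π ^ 2) * θ ^ 2) := by
        apply intervalIntegral.norm_integral_le_of_norm_le hle
        · filter_upwards with θ hθ
          exact hK θ ⟨hθ.1.le, hθ.2⟩
        · exact hint.intervalIntegrable
    _ = ∫ θ in Ioc (-π) π, 2 * η * π ^ 2 * Real.exp (-(n / π ^ 2) * θ ^ 2) := by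
        rw [intervalIntegral.integral_of_le hle]
    _ ≤ ∫ θ, 2 * η * π ^ 2 * Real.exp (-(n / π ^ 2) * θ ^ 2) := by
        apply setIntegral_le_integral hint
        filter_upwards with θ
        positivity
    _ = 2 * η * π ^ 2 * √(π / (n / π ^ 2)) := by
        rw [integral_const_mul, integral_gaussian]
    _ ≤ 120 * η / √n := by
        have e1 : √(π / (n / π ^ 2)) = √(π ^ 3) / √n := by
          rw [← Real.sqrt_div (by positivity)]
          congr 1
          field_simp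
        rw [e1]
        have h1 : √(π ^ 3) ≤ 6 := by
          rw [Real.sqrt_le_left (by norm_num)]
          nlinarith
        have hsq : 0 < √(n : ℝ) := Real.sqrt_pos.2 hn0
        have h2 : 2 * η * π ^ 2 * (√(π ^ 3) / √n) = 2 * η * (π ^ 2 * √(π ^ 3)) / √n := by ring
        rw [h2]
        apply div_le_div_of_nonneg_right _ hsq.le
        have h3 : π ^ 2 * √(π ^ 3) ≤ 10 * 6 := by
          have h4 : π ^ 2 ≤ 10 := by nlinarith
          exact mul_le_mul h4 h1 (Real.sqrt_nonneg _) (by norm_num)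
        nlinarith

/-- the integral does not vanish -/
lemma ne_zero {n : ℕ} (hn : 1 ≤ n) {η : ℝ} (hη0 : 0 ≤ η) (hη : η ≤ 1 / 1000) (r : ℝ → ℂ)
    (hrc : ContinuousOn r (Icc (-π) π)) (hr : ∀ θ ∈ Icc (-π) π, ‖r θ‖ ≤ η * n * θ ^ 2) :
    ∫ θ in (-π)..π, cexp (n * (cexp (θ * I) - 1) - n * (θ * I)) * cexp (r θ) ≠ 0 := by
  intro h0
  have hn0 : (0 : ℝ) < n := by exact_mod_cast hn
  have hle : -π ≤ π := by linarith [Real.pi_pos]
  have hc : Continuous (fun θ : ℝ => cexp (n * (cexp (θ * I) - 1) - n * (θ * I))) := by fun_prop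
  have hi1 : IntervalIntegrable (fun θ : ℝ => cexp (n * (cexp (θ * I) - 1) - n * (θ * I)) *
      cexp (r θ)) volume (-π) π := by
    apply ContinuousOn.intervalIntegrable
    rw [uIcc_of_le hle]
    exact hc.continuousOn.mul hrc.cexp
  have hi2 : IntervalIntegrable (fun θ : ℝ => cexp (n * (cexp (θ * I) - 1) - n * (θ * I)))
      volume (-π) π := hc.intervalIntegrable _ _
  have h1 := intervalIntegral.integral_sub hi1 hi2
  rw [h0, main_eq n, zero_sub] at h1
  have h2 : ∀ θ : ℝ, cexp (n * (cexp (θ * I) - 1) - n * (θ * I)) * cexp (r θ) -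
      cexp (n * (cexp (θ * I) - 1) - n * (θ * I)) =
      cexp (n * (cexp (θ * I) - 1) - n * (θ * I)) * (cexp (r θ) - 1) := fun θ => by ring
  simp_rw [h2] at h1
  have h3 := err_le hn hη0 hη r hr
  rw [h1, norm_neg, Complex.norm_real, Real.norm_eq_abs] at h3
  have h4 := (main_ge hn).trans ((le_abs_self _).trans h3)
  have hsq : 0 < √(n : ℝ) := Real.sqrt_pos.2 hn0
  rw [div_le_div_iff_of_pos_right hsq] at h4
  linarith

theorem sadu : Pool.Agent.TH839.ZT.S_SADU := by
  refine ⟨1 / 1000, by norm_num, fun ρ hρ hρ1 => ⟨ρ / 100, 1, by positivity, ?_⟩⟩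
  intro h n f g hh1 hnh hf hg hg0 hB hfg
  have hh : 0 < h := by linarith
  rcases Nat.eq_zero_or_pos n with rfl | hn
  · rw [iteratedDeriv_zero, hfg 0 (mem_ball_self hρ), hg0]
    exact Complex.exp_ne_zero _
  have hn0 : (0 : ℝ) < n := by exact_mod_cast hn
  have hnC : (n : ℂ) ≠ 0 := by exact_mod_cast hn.ne'
  -- the saddle point
  have hdneg : ∀ w : ℂ, deriv (fun z => -g (-z)) w = deriv g (-w) := by
    intro w
    have e1 : (fun z => -g (-z)) = fun z => -((fun y => g (-y)) z) := rfl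
    rw [e1, deriv.fun_neg, deriv_comp_neg, neg_neg]
  have hgd : DifferentiableOn ℂ (fun z => -g (-z)) (ball 0 ρ) := by
    apply DifferentiableOn.neg
    apply hg.comp differentiable_neg.differentiableOn
    intro z hz
    rw [mem_ball_zero_iff] at hz ⊢
    rwa [norm_neg]
  obtain ⟨w0, hw0, hsad⟩ := Pool.Agent.TH645.ZT.saddle (g := fun z => -g (-z)) hρ hρ1 hn hnh hgd
    (fun w hw => by
      rw [hdneg]
      apply hB
      rw [mem_ball_zero_iff] at hw ⊢
      rwa [norm_neg])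
  rw [hdneg, neg_neg] at hsad
  rw [mem_closedBall_zero_iff] at hw0
  have hw0ne : w0 ≠ 0 := by
    rintro rfl
    rw [zero_mul] at hsad
    exact hnC hsad.symm
  have hball : ∀ θ : ℝ, w0 * cexp (θ * I) ∈ closedBall (0 : ℂ) (ρ / 2) := by
    intro θ
    rw [mem_closedBall_zero_iff, norm_mul, Complex.norm_exp_ofReal_mul_I, mul_one]
    linarith
  have hwb : w0 ∈ closedBall (0 : ℂ) (ρ / 2) := by
    rw [mem_closedBall_zero_iff]; linarith
  -- the size of the saddle point
  have hnorm : ‖w0‖ * (999 / 1000 * h) ≤ n := by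
    have h1 : ‖w0 * (h + deriv g w0)‖ = n := by rw [hsad]; simp
    rw [norm_mul] at h1
    have h2 : 999 / 1000 * h ≤ ‖(h : ℂ) + deriv g w0‖ := by
      have h3 := norm_sub_le_norm_add (h : ℂ) (deriv g w0)
      rw [Complex.norm_real, Real.norm_eq_abs, abs_of_pos hh] at h3
      have h4 := hB w0 (Pool.Agent.TH645.ZT.mem_ball_of hρ hwb)
      linarith
    rw [← h1]
    exact mul_le_mul_of_nonneg_left h2 (norm_nonneg _)
  intro hzero
  -- Cauchy
  have hc := cauchy (fun z => f (w0 * z)) (hf.comp (by fun_prop)) n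
  rw [iteratedDeriv_comp_const_mul hf.contDiff] at hc
  simp only [mul_zero] at hc
  rw [hzero, mul_zero, mul_zero] at hc
  set r : ℝ → ℂ := fun θ => g (w0 * cexp (θ * I)) - g w0 - deriv g w0 * (w0 * cexp (θ * I) - w0)
    with hr
  have hF : ∀ θ : ℝ, f (w0 * cexp (θ * I)) * cexp (-(n * (θ * I))) =
      cexp (g w0 + h * w0) * (cexp (n * (cexp (θ * I) - 1) - n * (θ * I)) * cexp (r θ)) := by
    intro θ
    rw [hfg _ (Pool.Agent.TH645.ZT.mem_ball_of hρ (hball θ)), ← Complex.exp_add, ← Complex.exp_add,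
      ← Complex.exp_add]
    congr 1
    rw [hr, ← hsad]
    ring
  simp_rw [hF] at hc
  rw [intervalIntegral.integral_const_mul] at hc
  rcases mul_eq_zero.1 hc with h1 | h1
  · exact Complex.exp_ne_zero _ h1
  · refine ne_zero (η := 1 / 1000) hn (by norm_num) le_rfl r ?_ ?_ h1
    · apply Continuous.continuousOn
      have hgc : ContinuousOn g (ball 0 ρ) := hg.continuousOn
      have h2 : Continuous (fun θ : ℝ => g (w0 * cexp (θ * I))) :=
        hgc.comp_continuous (by fun_prop) (fun θ => Pool.Agent.TH645.ZT.mem_ball_of hρ (hball θ))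
      have h3 : Continuous (fun θ : ℝ => deriv g w0 * (w0 * cexp (θ * I) - w0)) := by fun_prop
      exact (h2.sub continuous_const).sub h3
    · intro θ _
      have h2 := Pool.Agent.TH645.ZT.taylor2 hρ hg (by positivity : 0 ≤ 1 / 1000 * h) hB hwb (hball θ)
      have h3 : ‖w0 * cexp (θ * I) - w0‖ ≤ ‖w0‖ * |θ| := by
        have e1 : w0 * cexp (θ * I) - w0 = w0 * (cexp (θ * I) - 1) := by ring
        rw [e1, norm_mul]
        apply mul_le_mul_of_nonneg_left _ (norm_nonneg _)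
        have := Real.norm_exp_I_mul_ofReal_sub_one_le (x := θ)
        rwa [mul_comm, Real.norm_eq_abs] at this
      refine h2.trans ?_
      have h4 : ‖w0 * cexp (θ * I) - w0‖ ^ 2 ≤ ‖w0‖ ^ 2 * θ ^ 2 := by
        have := pow_le_pow_left₀ (norm_nonneg _) h3 2
        rwa [mul_pow, sq_abs] at this
      have h5 : 1 / 1000 * h / (ρ / 4) * ‖w0‖ ^ 2 ≤ 1 / 1000 * n := by
        have h6 : ‖w0‖ * (999 / 1000 * h) * ‖w0‖ ≤ n * (ρ / 50) :=
          mul_le_mul hnorm hw0 (norm_nonneg _) hn0.le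
        have h7 : 1 / 1000 * h / (ρ / 4) * ‖w0‖ ^ 2 = (4 / 1000) * (h * ‖w0‖ ^ 2) / ρ := by
          field_simp
        rw [h7, div_le_iff₀ hρ]
        have h8 : h * ‖w0‖ ^ 2 ≤ (n * (ρ / 50)) * (1000 / 999) := by
          have e2 : ‖w0‖ * (999 / 1000 * h) * ‖w0‖ = 999 / 1000 * (h * ‖w0‖ ^ 2) := by ring
          rw [e2] at h6
          linarith
        have h9 : 0 < n * ρ := by positivity
        nlinarith
      calc 1 / 1000 * h / (ρ / 4) * ‖w0 * cexp (θ * I) - w0‖ ^ 2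
          ≤ 1 / 1000 * h / (ρ / 4) * (‖w0‖ ^ 2 * θ ^ 2) :=
            mul_le_mul_of_nonneg_left h4 (by positivity)
        _ = 1 / 1000 * h / (ρ / 4) * ‖w0‖ ^ 2 * θ ^ 2 := by ring
        _ ≤ 1 / 1000 * n * θ ^ 2 := mul_le_mul_of_nonneg_right h5 (sq_nonneg _)

end Pool.Agent.TH757.ZT
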